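import Pool.Agent.N110.CC.GStm

/-!
# Project CC, leaf BALL: an order unit is in the interior
-/

set_option autoImplicit false

namespace Pool.Agent.N380.CC

open Pool.Agent.N110.CC

theorem leafBALL : S_BALL := by
  classical
  intro ρ C hadd hsmul h hunit
  have hh : h ∈ C := by
    obtain ⟨t, ht, h1⟩ := hunit (-h)
    have h2 := hsmul (1 / (t + 1)) (by positivity) _ h1
    have h3 : (1 / (t + 1)) • (t • h - -h) = h := by
      have : t • h - -h = (t + 1) • h := by
        rw [sub_neg_eq_add, add_smul, one_smul]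
      rw [this, smul_smul, one_div_mul_cancel (by positivity), one_smul]
    rw [h3] at h2
    exact h2
  have h0 : (0 : Fin ρ → ℝ) ∈ C := by
    have := hsmul 0 le_rfl h hh
    rwa [zero_smul] at this
  have hsum : ∀ (s : Finset (Fin ρ)) (f : Fin ρ → Fin ρ → ℝ), (∀ j ∈ s, f j ∈ C) →
      ∑ j ∈ s, f j ∈ C := by
    intro s f
    induction s using Finset.induction_on with
    | empty => intro _; simpa using h0
    | insert a s ha ih =>
      intro hs
      rw [Finset.sum_insert ha]
      exact hadd _ (hs a (Finset.mem_insert_self _ _)) _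
        (ih fun j hj => hs j (Finset.mem_insert_of_mem hj))
  have hp : ∀ j : Fin ρ, ∃ t : ℝ, 0 ≤ t ∧ t • h - Pi.single j 1 ∈ C := fun j => hunit _
  have hn : ∀ j : Fin ρ, ∃ t : ℝ, 0 ≤ t ∧ t • h + Pi.single j 1 ∈ C := by
    intro j
    obtain ⟨t, ht, h1⟩ := hunit (-(Pi.single j 1))
    rw [sub_neg_eq_add] at h1
    exact ⟨t, ht, h1⟩
  choose tp htp htp' using hp
  choose tn htn htn' using hn
  obtain ⟨T, hT⟩ : ∃ T : ℝ, T = ∑ j, (tp j + tn j) + 1 := ⟨_, rfl⟩
  have hT1 : 1 ≤ T := by
    rw [hT]
    have : 0 ≤ ∑ j, (tp j + tn j) := Finset.sum_nonneg fun j _ => add_nonneg (htp j) (htn j)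
    linarith
  have hle : ∀ j, tp j ≤ T ∧ tn j ≤ T := by
    intro j
    have h1 : tp j + tn j ≤ ∑ j, (tp j + tn j) :=
      Finset.single_le_sum (f := fun j => tp j + tn j)
        (fun i _ => add_nonneg (htp i) (htn i)) (Finset.mem_univ j)
    rw [hT]
    constructor <;> linarith [htp j, htn j]
  have hTp : ∀ j, T • h - Pi.single j 1 ∈ C := by
    intro j
    have h1 := hadd _ (hsmul (T - tp j) (by linarith [(hle j).1]) h hh) _ (htp' j)
    have h2 : (T - tp j) • h + (tp j • h - Pi.single j 1) = T • h - Pi.single j 1 := by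
      rw [sub_smul]
      abel
    rwa [h2] at h1
  have hTn : ∀ j, T • h + Pi.single j 1 ∈ C := by
    intro j
    have h1 := hadd _ (hsmul (T - tn j) (by linarith [(hle j).2]) h hh) _ (htn' j)
    have h2 : (T - tn j) • h + (tn j • h + Pi.single j 1) = T • h + Pi.single j 1 := by
      rw [sub_smul]
      abel
    rwa [h2] at h1
  have hx : ∀ (j : Fin ρ) (x : ℝ), (|x| * T) • h + Pi.single j x ∈ C := by
    intro j x
    rcases le_total 0 x with h1 | h1
    · have h2 := hsmul x h1 _ (hTn j)
      have h3 : x • (T • h + Pi.single j 1) = (|x| * T) • h + Pi.single j x := by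
        rw [abs_of_nonneg h1, smul_add, smul_smul]
        congr 1
        ext i
        simp [Pi.single_apply]
      rwa [h3] at h2
    · have h2 := hsmul (-x) (by linarith) _ (hTp j)
      have h3 : (-x) • (T • h - Pi.single j 1) = (|x| * T) • h + Pi.single j x := by
        rw [abs_of_nonpos h1, smul_sub, smul_smul, sub_eq_add_neg]
        congr 1
        ext i
        by_cases hij : i = j
        · subst hij
          simp
        · simp [hij]
      rwa [h3] at h2
  rw [mem_interior_iff_mem_nhds, Metric.mem_nhds_iff]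
  have hρ : (0 : ℝ) < ρ + 1 := by positivity
  have hT0 : 0 < T := by linarith
  refine ⟨1 / ((ρ + 1) * T), by positivity, fun y hy => ?_⟩
  rw [Metric.mem_ball, dist_eq_norm] at hy
  have hj : ∀ j, |(y - h) j| ≤ 1 / ((ρ + 1) * T) := fun j =>
    (norm_le_pi_norm (y - h) j).trans hy.le
  have hS : (∑ j, |(y - h) j|) * T ≤ 1 := by
    have h1 : ∑ j, |(y - h) j| ≤ ∑ _j : Fin ρ, 1 / ((ρ + 1) * T) :=
      Finset.sum_le_sum fun j _ => hj j
    rw [Finset.sum_const, Finset.card_univ, Fintype.card_fin, nsmul_eq_mul] at h1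
    calc (∑ j, |(y - h) j|) * T ≤ (ρ * (1 / ((ρ + 1) * T))) * T := by gcongr
      _ = ρ / (ρ + 1) := by field_simp
      _ ≤ 1 := by
        rw [div_le_one hρ]
        linarith
  have hfin : y = (1 - (∑ j, |(y - h) j|) * T) • h +
      ∑ j, ((|(y - h) j| * T) • h + Pi.single j ((y - h) j)) := by
    rw [Finset.sum_add_distrib, Finset.univ_sum_single, ← Finset.sum_smul, ← Finset.sum_mul,
      sub_smul, one_smul]
    abel
  rw [hfin]
  exact hadd _ (hsmul _ (by linarith) h hh) _ (hsum _ _ fun j _ => hx j _)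

end Pool.Agent.N380.CC
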